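import Pool.Agent.X118.EL.Stm

/-! Part EL_ABS_ITER (statement `S_ITER` of helper118): three-step real estimate. -/

set_option autoImplicit false

namespace Pool.Agent.X232.EL

open Pool.Agent.X118.EL

/-- the general step -/
lemma step {F : Type} {Adm : ℕ → F → ℝ → ℝ → Prop} {ν : F → ℝ}
    (hpos : ∀ k g a L, Adm k g a L → 0 ≤ a ∧ 0 ≤ L)
    (hdec : ∀ k, ∃ (D : ℝ) (N : ℕ), 0 ≤ D ∧ ∀ g a L t, Adm k g a L → 0 < t → t ≤ 1 →
      ∃ h : Fin N → F, (∀ i, Adm (3 * k) (h i) (D * t * a) (D * (t * L + a / t))) ∧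
        |ν g| ≤ 2 * ∑ i, |ν (h i)|)
    (j : ℕ)
    (hb : ∀ k, ∃ C : ℝ, 0 ≤ C ∧ ∀ g a L t, Adm k g a L → 0 < t → t ≤ 1 →
      |ν g| ≤ C * (t ^ j * (t * L + a / t))) :
    ∀ k, ∃ C : ℝ, 0 ≤ C ∧ ∀ g a L t, Adm k g a L → 0 < t → t ≤ 1 →
      |ν g| ≤ C * (t ^ (j + 1) * (t * L + a / t)) := by
  intro k
  obtain ⟨D, N, hD, hdk⟩ := hdec k
  obtain ⟨C, hC, hCb⟩ := hb (3 * k)
  refine ⟨2 * (N * (C * (2 * D))), by positivity, ?_⟩
  intro g a L t hg ht ht1
  obtain ⟨ha, hL⟩ := hpos k g a L hg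
  obtain ⟨h, hh, hn⟩ := hdk g a L t hg ht ht1
  have hi : ∀ i, |ν (h i)| ≤ C * (2 * D) * (t ^ (j + 1) * (t * L + a / t)) := by
    intro i
    have h1 := hCb _ _ _ t (hh i) ht ht1
    refine h1.trans ?_
    have h2 : t ^ j * (t * (D * (t * L + a / t)) + D * t * a / t) =
        D * (t ^ j * (t ^ 2 * L + a + a)) := by
      field_simp
    have h3 : t ^ (j + 1) * (t * L + a / t) = t ^ j * (t ^ 2 * L + a) := by
      rw [pow_succ]
      field_simp
    rw [h2, h3]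
    have h4 : t ^ j * (t ^ 2 * L + a + a) ≤ 2 * (t ^ j * (t ^ 2 * L + a)) := by
      have h5 : 0 ≤ t ^ j * (t ^ 2 * L) := by positivity
      nlinarith
    have h6 : D * (t ^ j * (t ^ 2 * L + a + a)) ≤ D * (2 * (t ^ j * (t ^ 2 * L + a))) :=
      mul_le_mul_of_nonneg_left h4 hD
    have h7 := mul_le_mul_of_nonneg_left h6 hC
    calc C * (D * (t ^ j * (t ^ 2 * L + a + a))) ≤ C * (D * (2 * (t ^ j * (t ^ 2 * L + a)))) := h7
      _ = C * (2 * D) * (t ^ j * (t ^ 2 * L + a)) := by ring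
  have hs : ∑ i, |ν (h i)| ≤ N * (C * (2 * D) * (t ^ (j + 1) * (t * L + a / t))) := by
    have := Finset.sum_le_sum (fun i (_ : i ∈ Finset.univ) => hi i)
    simpa using this
  calc |ν g| ≤ 2 * ∑ i, |ν (h i)| := hn
    _ ≤ 2 * (N * (C * (2 * D) * (t ^ (j + 1) * (t * L + a / t)))) := by linarith
    _ = 2 * (N * (C * (2 * D))) * (t ^ (j + 1) * (t * L + a / t)) := by ring

theorem t_ITER : S_ITER := by
  intro F Adm ν C h0 hdec k g a L hg
  have hpos : ∀ k g a L, Adm k g a L → 0 ≤ a ∧ 0 ≤ L := fun k g a L h =>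
    ⟨(h0 k g a L h).1, (h0 k g a L h).2.1⟩
  have b0 : ∀ k, ∃ C : ℝ, 0 ≤ C ∧ ∀ g a L t, Adm k g a L → 0 < t → t ≤ 1 →
      |ν g| ≤ C * (t ^ 0 * (t * L + a / t)) := by
    intro k
    obtain ⟨D, N, hD, hdk⟩ := hdec k
    refine ⟨2 * (N * (|C| * (2 * D))), by positivity, ?_⟩
    intro g a L t hg ht ht1
    obtain ⟨ha, hL⟩ := hpos k g a L hg
    obtain ⟨h, hh, hn⟩ := hdk g a L t hg ht ht1
    have hi : ∀ i, |ν (h i)| ≤ |C| * (2 * D) * (t * L + a / t) := by
      intro i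
      obtain ⟨p1, p2, p3⟩ := h0 _ _ _ _ (hh i)
      have q1 : C * (D * t * a + D * (t * L + a / t)) ≤
          |C| * (D * t * a + D * (t * L + a / t)) :=
        mul_le_mul_of_nonneg_right (le_abs_self C) (add_nonneg p1 p2)
      have q2 : t * a ≤ a / t := by
        rw [le_div_iff₀ ht]
        have : t * t ≤ 1 := by nlinarith
        nlinarith
      have q3 : 0 ≤ t * L := by positivity
      have q4 : D * t * a + D * (t * L + a / t) ≤ 2 * D * (t * L + a / t) := by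
        have : D * (t * a) ≤ D * (t * L + a / t) :=
          mul_le_mul_of_nonneg_left (by linarith) hD
        nlinarith
      have q5 := mul_le_mul_of_nonneg_left q4 (abs_nonneg C)
      calc |ν (h i)| ≤ C * (D * t * a + D * (t * L + a / t)) := p3
        _ ≤ |C| * (D * t * a + D * (t * L + a / t)) := q1
        _ ≤ |C| * (2 * D * (t * L + a / t)) := q5
        _ = |C| * (2 * D) * (t * L + a / t) := by ring
    have hs : ∑ i, |ν (h i)| ≤ N * (|C| * (2 * D) * (t * L + a / t)) := by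
      have := Finset.sum_le_sum (fun i (_ : i ∈ Finset.univ) => hi i)
      simpa using this
    calc |ν g| ≤ 2 * ∑ i, |ν (h i)| := hn
      _ ≤ 2 * (N * (|C| * (2 * D) * (t * L + a / t))) := by linarith
      _ = 2 * (N * (|C| * (2 * D))) * (t ^ 0 * (t * L + a / t)) := by rw [pow_zero]; ring
  have b1 := step hpos hdec 0 b0
  have b2 := step hpos hdec (0 + 1) b1
  obtain ⟨K, hK, hKb⟩ := b2 k
  obtain ⟨ha, hL⟩ := hpos k g a L hg
  by_contra hne
  have hp : 0 < |ν g| := abs_pos.mpr hne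
  set M := K * (L + a) with hM
  have hM0 : 0 ≤ M := by positivity
  have key : ∀ t, 0 < t → t ≤ 1 → |ν g| ≤ M * t := by
    intro t ht ht1
    refine (hKb g a L t hg ht ht1).trans ?_
    have e1 : t ^ (0 + 1 + 1) * (t * L + a / t) = t * (t ^ 2 * L + a) := by
      field_simp
    rw [e1, hM]
    have e2 : t ^ 2 * L ≤ L := by
      have : t ^ 2 ≤ 1 := by nlinarith
      nlinarith
    have e3 : t * (t ^ 2 * L + a) ≤ t * (L + a) := mul_le_mul_of_nonneg_left (by linarith) ht.le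
    calc K * (t * (t ^ 2 * L + a)) ≤ K * (t * (L + a)) := mul_le_mul_of_nonneg_left e3 hK
      _ = K * (L + a) * t := by ring
  have hM1 : 0 < M + 1 := by linarith
  have t0 : 0 < min 1 (|ν g| / (2 * (M + 1))) := lt_min one_pos (by positivity)
  have h1 := key _ t0 (min_le_left _ _)
  have h2 : M * min 1 (|ν g| / (2 * (M + 1))) ≤ (M + 1) * (|ν g| / (2 * (M + 1))) :=
    mul_le_mul (by linarith) (min_le_right _ _) t0.le hM1.le
  have h3 : (M + 1) * (|ν g| / (2 * (M + 1))) = |ν g| / 2 := by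
    field_simp
  linarith

end Pool.Agent.X232.EL
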